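import Pool.Agent.Work.MP_7596a5_pr.Transfer
import Pool.Agent.Work.MP_7596a5_pr.Exist

/-!
Simple random walk on the degree-7 triangulation, in its circle packing by circles of equal
hyperbolic radius: the harmonic measure is singular and has no atoms.
-/

set_option autoImplicit false

namespace Pool.Agent.Results.MP_7596a5_pr.HarmonicMeasureType

open MeasureTheory Filter Topology

universe u v

/-- `G` is a connected graph in which the neighbours of each vertex are seven distinct vertices
`u 0, ..., u 6` with `u i` adjacent to `u (i + 1)` (cyclically): the degree-7 triangulation.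
The circles of centre `c v` and radius `r v` form a circle packing of it in the open unit disc:
closed discs inside the open unit disc, tangent circles for adjacent vertices, disjoint interiors.
All circles have the same hyperbolic radius `h`; a euclidean circle of centre `c` and radius `r`
inside the unit disc has hyperbolic radius `h` (for the metric `2|dz|/(1-|z|²)`) if and only if
`2 r = tanh h * (1 - |c|² + r²)`. -/
structure IsPacking7 {V : Type u} (G : SimpleGraph V) (c : V → ℂ) (r : V → ℝ) : Prop where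
  conn : G.Connected
  flower : ∀ v, ∃ u : ZMod 7 → V, Function.Injective u ∧ (∀ w, G.Adj v w ↔ ∃ i, u i = w) ∧
    ∀ i, G.Adj (u i) (u (i + 1))
  rpos : ∀ v, 0 < r v
  disc : ∀ v, ‖c v‖ + r v < 1
  tangent : ∀ v w, G.Adj v w → ‖c v - c w‖ = r v + r w
  univalent : ∀ v w, v ≠ w → r v + r w ≤ ‖c v - c w‖
  hyp : ∃ h : ℝ, ∀ v, 2 * r v = Real.tanh h * (1 - ‖c v‖ ^ 2 + r v ^ 2)

/-- normalised arc length `dθ/2π` on the unit circle -/
noncomputable def arcLength : Measure ℂ :=
  ENNReal.ofReal (1 / (2 * Real.pi)) •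
    (volume.restrict (Set.Ioc (-Real.pi) Real.pi)).map (fun θ : ℝ => Complex.exp (θ * Complex.I))

/-- `X` is simple random walk on the 7-regular graph `G` started at `α`: every path of length `n`
in `G` which starts at `α` is followed with probability `7 ^ (-n)`. -/
def IsSRW {V : Type u} (G : SimpleGraph V) (α : V) {Ω : Type v} [MeasurableSpace Ω] (P : Measure Ω)
    (X : ℕ → Ω → V) : Prop :=
  ∀ (n : ℕ) (w : ℕ → V), w 0 = α → (∀ i < n, G.Adj (w i) (w (i + 1))) →
    P {ω | ∀ i ≤ n, X i ω = w i} = (1 / 7) ^ n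

theorem IsPacking7.toK7 {V : Type u} {G : SimpleGraph V} {c : V → ℂ} {r : V → ℝ}
    (h : IsPacking7 G c r) : Pool.Agent.K7.IsPacking7 G c r where
  conn := h.conn
  flower := h.flower
  rpos := h.rpos
  disc := h.disc
  tangent := h.tangent
  univalent := h.univalent
  hyp := by
    obtain ⟨t, ht⟩ := h.hyp
    refine ⟨(Real.tanh t)⁻¹, fun v => ?_⟩
    have h1 := ht v
    have h2 := h.rpos v
    have h3 : Real.tanh t ≠ 0 := by
      intro h0
      rw [h0, zero_mul] at h1
      linarith
    field_simp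
    linarith

/-- The hypotheses are consistent: such a packing exists, with a circle centred at `0`. -/
theorem packing_exists : ∃ (V : Type) (_ : Countable V) (G : SimpleGraph V) (c : V → ℂ)
    (r : V → ℝ) (α : V), IsPacking7 G c r ∧ c α = 0 := by
  obtain ⟨h, α, hα⟩ := Pool.Agent.K7.exists_packing
  refine ⟨Pool.Agent.K7.VV, Pool.Agent.K7.countable_VV, Pool.Agent.K7.GG, Pool.Agent.K7.cV,
    Pool.Agent.K7.rV, α, ⟨h.conn, h.flower, h.rpos, h.disc, h.tangent, h.univalent, ?_⟩, hα⟩
  obtain ⟨K, hK⟩ := h.hyp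
  have hK1 : 1 < K := by
    have h1 := hK α
    have h2 := h.disc α
    have h3 := h.rpos α
    rw [hα] at h1 h2
    simp only [norm_zero, zero_add] at h1 h2
    by_contra hcon
    push Not at hcon
    nlinarith
  have hD : 0 < K ^ 2 - 1 := by nlinarith
  have hs : 0 < Real.sqrt (K ^ 2 - 1) := Real.sqrt_pos.2 hD
  have hs2 : Real.sqrt (K ^ 2 - 1) ^ 2 = K ^ 2 - 1 := Real.sq_sqrt hD.le
  refine ⟨Real.arsinh (1 / Real.sqrt (K ^ 2 - 1)), fun v => ?_⟩
  have ht : Real.tanh (Real.arsinh (1 / Real.sqrt (K ^ 2 - 1))) = 1 / K := by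
    rw [Real.tanh_eq_sinh_div_cosh, Real.sinh_arsinh, Real.cosh_arsinh]
    have h4 : Real.sqrt (1 + (1 / Real.sqrt (K ^ 2 - 1)) ^ 2) = K / Real.sqrt (K ^ 2 - 1) := by
      rw [show 1 + (1 / Real.sqrt (K ^ 2 - 1)) ^ 2 = (K / Real.sqrt (K ^ 2 - 1)) ^ 2 by
        field_simp
        rw [hs2]
        ring]
      exact Real.sqrt_sq (by positivity)
    rw [h4]
    field_simp
  rw [ht, hK v]
  field_simp

/-- The harmonic measure (the law of the limit `L` of the euclidean centres along simple random
walk) is not Lebesgue measure, is not absolutely continuous, is singular with respect to Lebesgue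
measure, and has no atoms. -/
theorem result {V : Type u} [Countable V] [MeasurableSpace V] [DiscreteMeasurableSpace V]
    {G : SimpleGraph V} {c : V → ℂ} {r : V → ℝ} (hP : IsPacking7 G c r) (α : V)
    {Ω : Type v} [MeasurableSpace Ω] (P : Measure Ω) [IsProbabilityMeasure P] (X : ℕ → Ω → V)
    (hX : ∀ n, Measurable (X n)) (hwalk : IsSRW G α P X) :
    ∃ L : Ω → ℂ, Measurable L ∧
      (∀ᵐ ω ∂P, ‖L ω‖ = 1 ∧ Tendsto (fun n => c (X n ω)) atTop (𝓝 (L ω))) ∧
      P.map L ≠ arcLength ∧ ¬ P.map L ≪ arcLength ∧ P.map L ⟂ₘ arcLength ∧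
      ∀ ζ : ℂ, P.map L {ζ} = 0 := by
  obtain ⟨L, hL, hlim, hsing, hat, hne⟩ :=
    Pool.Agent.K7.main_packing hP.toK7 P X hX hwalk
  refine ⟨L, hL, hlim, hne, ?_, hsing, hat⟩
  intro hac
  have h0 : P.map L = 0 := Measure.eq_zero_of_absolutelyContinuous_of_mutuallySingular hac hsing
  have h1 : IsProbabilityMeasure (P.map L) := Measure.isProbabilityMeasure_map hL.aemeasurable
  exact h1.ne_zero _ h0

end Pool.Agent.Results.MP_7596a5_pr.HarmonicMeasureType
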